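import Pool.Agent.Lib.MP_023911_pr.Conv

/-!
# The noisy min-max game with random boundary has a critical point for all large degrees

Vertices of the rooted `d`-ary tree are lists over `Fin d` (the path from the root), the children
of `v` are `v ++ [a]`. `X v a` is the sign on the edge from `v` to `v ++ [a]`, `B n v` is the
boundary value at the vertex `v` of height `2 n`, and `V n v` is the value of `v` in the game of
depth `2 n`.
-/

set_option autoImplicit false

namespace Pool.Agent.Results.MP_023911_pr.CriticalPoint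

open MeasureTheory ProbabilityTheory Filter Topology

theorem result : ∃ d₀ : ℕ, ∀ d : ℕ, d₀ ≤ d →
    ∃ (F : Measure ℝ) (_ : IsProbabilityMeasure F) (pc : ℝ), 0 < pc ∧ pc < 1 ∧
      ∀ p : ℝ, 0 ≤ p → p ≤ 1 →
      ∀ (Ω : Type) [MeasurableSpace Ω] (P : Measure Ω) [IsProbabilityMeasure P]
        (X : List (Fin d) → Fin d → Ω → ℝ)
        (B : (n : ℕ) → {v : List (Fin d) // v.length = 2 * n} → Ω → ℝ)
        (V : ℕ → List (Fin d) → Ω → ℝ),
        (∀ v a, Measurable (X v a)) → (∀ n v, Measurable (B n v)) →
        (∀ n, iIndepFun (Sum.elim (fun e : List (Fin d) × Fin d => X e.1 e.2) (B n)) P) →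
        (∀ v a, P.map (X v a) =
          (1 / 2 : ENNReal) • Measure.dirac 1 + (1 / 2 : ENNReal) • Measure.dirac (-1)) →
        (∀ n v, P.map (B n v) =
          ENNReal.ofReal p • Measure.dirac 0 + ENNReal.ofReal (1 - p) • Measure.dirac 2) →
        (∀ n v, ∀ hv : v.length = 2 * n, ∀ ω, V n v ω = B n ⟨v, hv⟩ ω) →
        (∀ n v ω, v.length < 2 * n → Even v.length →
          V n v ω = ⨆ a : Fin d, (X v a ω + V n (v ++ [a]) ω)) →
        (∀ n v ω, v.length < 2 * n → Odd v.length →
          V n v ω = ⨅ a : Fin d, (X v a ω + V n (v ++ [a]) ω)) →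
        (p < pc →
          TendstoInDistribution (fun n => V n []) atTop (fun x : ℝ => x + 2) (fun _ => P) F) ∧
        (pc < p →
          TendstoInDistribution (fun n => V n []) atTop (fun x : ℝ => x) (fun _ => P) F) := by
  obtain ⟨d₀, hd₀⟩ := Lib.MP_023911_pr.exists_good
  refine ⟨d₀, fun d hd => ?_⟩
  have hg := hd₀ d hd
  obtain ⟨pc, hpc0, hpc1, hlow, hhigh⟩ := Lib.MP_023911_pr.exists_crit hg
  refine ⟨Lib.MP_023911_pr.limLaw hg, inferInstance, pc, hpc0, hpc1, ?_⟩
  intro p hp0 hp1 Ω _ P _ X B V hX hB hind hXl hBl hV0 hVmax hVmin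
  have hd1 : 1 ≤ d := le_trans (by norm_num) hg.four_le
  -- the root value as a function of the noise
  have hval : ∀ n ω, V n [] ω = Lib.MP_023911_pr.val d (2 * n)
      (fun i => Sum.elim (fun e : List (Fin d) × Fin d => X e.1 e.2) (B n) i ω) := by
    intro n ω
    have h1 := Lib.MP_023911_pr.value_eq_val (2 * n) (fun v a => X v a ω) (fun w => B n w ω)
      (fun v => V n v ω) (fun v hv => hV0 n v hv ω)
      (fun v hv hev => hVmax n v ω hv (by
        rw [Nat.even_sub hv.le] at hev
        exact hev.1 (even_two_mul n)))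
      (fun v hv hev => hVmin n v ω hv (by
        rw [← Nat.not_even_iff_odd]
        intro h2
        exact hev ((Nat.even_sub hv.le).2 ⟨fun _ => h2, fun _ => even_two_mul n⟩)))
    refine h1.trans ?_
    congr 1
    funext i
    rcases i with e | w <;> rfl
  have hz : ∀ n, ∀ i, Measurable
      (Sum.elim (fun e : List (Fin d) × Fin d => X e.1 e.2) (B n) i) := by
    intro n i
    rcases i with e | w
    · exact hX _ _
    · exact hB _ _
  have hVm : ∀ n, Measurable (V n []) := by
    intro n
    have : V n [] = fun ω => Lib.MP_023911_pr.val d (2 * n)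
        (fun i => Sum.elim (fun e : List (Fin d) × Fin d => X e.1 e.2) (B n) i ω) := by
      funext ω
      exact hval n ω
    rw [this]
    exact (Lib.MP_023911_pr.measurable_val d (2 * n)).comp (measurable_pi_lambda _ (hz n))
  have hcdf : ∀ n x, P.real {ω | V n [] ω ≤ x} = Lib.MP_023911_pr.A d p n ⌊x / 2⌋ := by
    intro n x
    rw [← Lib.MP_023911_pr.G_eq]
    have h1 : {ω | V n [] ω ≤ x} = {ω | Lib.MP_023911_pr.val d (2 * n)
        (fun i => Sum.elim (fun e : List (Fin d) × Fin d => X e.1 e.2) (B n) i ω) ≤ x} := by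
      ext ω
      simp only [Set.mem_ofPred_eq, hval]
    rw [h1]
    apply Lib.MP_023911_pr.cdf_val hd1 p (2 * n) _ (hz n) (hind n)
    · intro e
      exact hXl _ _
    · intro v x
      have h2 : P.real {ω | B n v ω ≤ x} = (P.map (B n v)).real (Set.Iic x) := by
        unfold Measure.real
        rw [Measure.map_apply (hB n v) measurableSet_Iic]
        rfl
      refine Eq.trans ?_ (h2.trans ?_)
      · rfl
      · rw [hBl]
        simp only [Lib.MP_023911_pr.G]
        unfold Measure.real
        rw [Measure.add_apply, Measure.smul_apply, Measure.smul_apply,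
          Measure.dirac_apply' _ measurableSet_Iic, Measure.dirac_apply' _ measurableSet_Iic]
        by_cases h0 : x < 0
        · have h3 : ¬ (0 : ℝ) ≤ x := not_le.2 h0
          have h4 : ¬ (2 : ℝ) ≤ x := by linarith
          simp [h0, h3, h4]
        · have h3 : (0 : ℝ) ≤ x := not_lt.1 h0
          by_cases h4 : x < 2
          · have h5 : ¬ (2 : ℝ) ≤ x := not_le.2 h4
            simp [h0, h3, h4, h5, hp0]
          · have h5 : (2 : ℝ) ≤ x := not_lt.1 h4
            simp only [Set.indicator, Set.mem_Iic, h3, h5, if_true, h0, h4, if_false,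
              Pi.one_apply, smul_eq_mul, mul_one]
            rw [← ENNReal.ofReal_add hp0 (by linarith)]
            simp
  constructor
  · intro hp
    obtain ⟨N, hN⟩ := hlow p hp0 hp
    apply Lib.MP_023911_pr.tendstoInDistribution_of_cdf hVm (by fun_prop)
    intro x
    have h1 : {y : ℝ | y + 2 ≤ x} = Set.Iic (x - 2) := by
      ext y
      simp only [Set.mem_ofPred_eq, Set.mem_Iic]
      constructor <;> intro h <;> linarith
    rw [h1, Lib.MP_023911_pr.limLaw_Iic, Lib.MP_023911_pr.floor_sub_two]
    simp only [hcdf]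
    exact Lib.MP_023911_pr.tendsto_of_high hg hN _
  · intro hp
    obtain ⟨N, hN⟩ := hhigh p hp hp1
    apply Lib.MP_023911_pr.tendstoInDistribution_of_cdf hVm measurable_id'
    intro x
    have h1 : {y : ℝ | y ≤ x} = Set.Iic x := rfl
    rw [h1, Lib.MP_023911_pr.limLaw_Iic]
    simp only [hcdf]
    exact Lib.MP_023911_pr.tendsto_of_low hg hN _

end Pool.Agent.Results.MP_023911_pr.CriticalPoint
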